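import Pool.Agent.Helper84.OV.Zero

/-!
# Project OV, packet OV-LD2: vanishing Wronskian of two power series
-/

set_option autoImplicit false

open Finset

namespace Pool.Agent.Helper48.OV.LD2

open Pool.Agent.Helper84.OV

theorem lead (h k : PowerSeries ℚ) (a m : ℕ) (ha : ∀ i < a, PowerSeries.coeff i h = 0)
    (hm : ∀ i < m, PowerSeries.coeff i k = 0) :
    PowerSeries.coeff (a + m) (h * k) = PowerSeries.coeff a h * PowerSeries.coeff m k := by
  rw [PowerSeries.coeff_mul, Finset.sum_eq_single (a, m)]
  · rintro ⟨i, j⟩ hij hne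
    rw [HasAntidiagonal.mem_antidiagonal] at hij
    simp only at hij ⊢
    by_cases hi : i < a
    · rw [ha i hi, zero_mul]
    · by_cases hj : j < m
      · rw [hm j hj, mul_zero]
      · refine (hne ?_).elim
        ext
        · simp only
          omega
        · simp only
          omega
  · intro h1
    exact (h1 (by simp [HasAntidiagonal.mem_antidiagonal])).elim

theorem coeff_th (g : PowerSeries ℚ) (n : ℕ) :
    PowerSeries.coeff n (PowerSeries.X * dd g) = (n : ℚ) * PowerSeries.coeff n g := by
  cases n with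
  | zero => simp
  | succ n =>
    rw [PowerSeries.coeff_succ_X_mul, dd, PowerSeries.coeff_derivative]
    push_cast
    ring

theorem ord (f g : PowerSeries ℚ) (a m : ℕ) (hfa : PowerSeries.coeff a f ≠ 0)
    (hgm : PowerSeries.coeff m g ≠ 0) (ha : ∀ i < a, PowerSeries.coeff i f = 0)
    (hm : ∀ i < m, PowerSeries.coeff i g = 0) (h : f * dd g = dd f * g) : a = m := by
  have h1 : f * (PowerSeries.X * dd g) = (PowerSeries.X * dd f) * g := by
    rw [mul_left_comm, h, mul_assoc]
  have h2 := congrArg (PowerSeries.coeff (a + m)) h1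
  rw [lead f _ a m ha fun i hi ↦ by rw [coeff_th, hm i hi, mul_zero],
    lead _ g a m (fun i hi ↦ by rw [coeff_th, ha i hi, mul_zero]) hm, coeff_th, coeff_th] at h2
  have h3 : ((a : ℚ) - m) * (PowerSeries.coeff a f * PowerSeries.coeff m g) = 0 := by
    linear_combination -h2
  rcases mul_eq_zero.1 h3 with h4 | h4
  · exact_mod_cast sub_eq_zero.1 h4
  · rcases mul_eq_zero.1 h4 with h5 | h5
    · exact (hfa h5).elim
    · exact (hgm h5).elim

theorem first (f : PowerSeries ℚ) (hf : f ≠ 0) :
    ∃ a, PowerSeries.coeff a f ≠ 0 ∧ ∀ i < a, PowerSeries.coeff i f = 0 := by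
  classical
  have h1 : ∃ a, PowerSeries.coeff a f ≠ 0 := by
    by_contra h2
    push Not at h2
    exact hf (PowerSeries.ext fun n ↦ by rw [h2 n, map_zero])
  exact ⟨Nat.find h1, Nat.find_spec h1, fun i hi ↦ not_not.1 (Nat.find_min h1 hi)⟩

theorem t : S_LD2 := by
  intro f g hg h
  obtain ⟨m, hgm, hm⟩ := first g hg
  refine ⟨PowerSeries.coeff m f / PowerSeries.coeff m g, ?_⟩
  set c : ℚ := PowerSeries.coeff m f / PowerSeries.coeff m g with hc
  by_contra hne
  have hk : f - PowerSeries.C c * g ≠ 0 := fun h1 ↦ hne (sub_eq_zero.1 h1)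
  obtain ⟨a, hka, ha⟩ := first _ hk
  have heq : (f - PowerSeries.C c * g) * dd g = dd (f - PowerSeries.C c * g) * g := by
    have h1 : dd (f - PowerSeries.C c * g) = dd f - PowerSeries.C c * dd g := by
      simp only [dd]
      rw [map_sub, Derivation.leibniz]
      simp
    rw [h1, sub_mul, sub_mul, h]
    ring
  have ham := ord _ g a m hka hgm ha hm heq
  rw [ham] at hka
  apply hka
  rw [map_sub, PowerSeries.coeff_C_mul, hc, div_mul_cancel₀ _ hgm, sub_self]

end Pool.Agent.Helper48.OV.LD2
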